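import Pool.Agent.H.MP_172a45_an.A

set_option autoImplicit false
open Polynomial

namespace Pool.Agent.Results.MP_172a45_an.Asym

theorem result (P : ℂ[X]) (N : ℕ) (hP : P.natDegree = N + 1) (hz : ∀ z, P.IsRoot z → ‖z‖ ≤ 1)
    (a : ℂ) (ha : P.IsRoot a) (ha' : ¬ P.derivative.IsRoot a) :
    (N : ℝ) - 13 * (N : ℝ) ^ (2 / 3 : ℝ) ≤ (P.derivative.roots.map fun ζ => 1 / ‖a - ζ‖).sum := by
  have hP0 : P ≠ 0 := by
    rintro rfl
    simp at hP
  obtain ⟨z, w, ez, ew, hd⟩ := Pool.Agent.H.MP_0234e1_an.factor P hP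
  have hw : ∀ j, w j ∈ P.derivative.roots := fun j => by
    rw [← ew]; exact Multiset.mem_map_of_mem _ (Finset.mem_univ_val j)
  have ha2 : a ∈ Finset.univ.val.map z := by rw [ez]; exact (mem_roots hP0).2 ha
  obtain ⟨k₀, -, rfl⟩ := Multiset.mem_map.1 ha2
  rw [← ew, Multiset.map_map]
  change _ ≤ ∑ j, 1 / ‖z k₀ - w j‖
  obtain ⟨s, hs0, hs⟩ : ∃ s : ℝ, 0 ≤ s ∧ (N : ℝ) = s ^ 3 :=
    ⟨(N : ℝ) ^ (1 / 3 : ℝ), by positivity, by
      rw [← Real.rpow_natCast, ← Real.rpow_mul N.cast_nonneg]; norm_num⟩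
  have e : (N : ℝ) ^ (2 / 3 : ℝ) = s ^ 2 := by
    rw [hs, ← Real.rpow_natCast, ← Real.rpow_mul hs0]; norm_num
  rw [e]
  rcases le_or_gt s 13 with h | h
  · refine le_trans ?_ (by positivity : 0 ≤ ∑ j, 1 / ‖z k₀ - w j‖)
    nlinarith [sq_nonneg s]
  have hs1 : 0 < s := by linarith
  refine le_trans (le_of_eq ?_) (Pool.Agent.H.MP_172a45_an.key z w hd (fun k => hz _
    (isRoot_of_mem_roots (by
      rw [← ez]; exact Multiset.mem_map_of_mem _ (Finset.mem_univ_val k)))) (fun j => ?_)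
    (η := 13 / s) (by positivity) ((div_lt_one hs1).2 h) ?_ k₀ fun j hj => ha' ?_)
  · rw [hs]
    field_simp
  · have h2 := rootSet_derivative_subset_convexHull_rootSet (P := P)
      (natDegree_pos_iff_degree_pos.1 (by omega))
      (show w j ∈ P.derivative.rootSet ℂ by simpa [mem_rootSet'] using hw j)
    have h3 := convexHull_min (t := Metric.closedBall (0 : ℂ) 1) (fun x (hx : x ∈ P.rootSet ℂ) => by
      simpa using hz x (by simpa using (mem_rootSet'.1 hx).2)) (convex_closedBall _ _) h2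
    simpa using h3
  · rw [hs, div_le_iff₀ (by positivity)]
    field_simp
    norm_num
  · rw [sub_eq_zero.1 hj]
    exact isRoot_of_mem_roots (hw j)

end Pool.Agent.Results.MP_172a45_an.Asym
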